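import Pool.Agent.Work.MP_82f4f8_an.MainD

/-!
The square of half side `aa` has capacity one: bounds for the products of distances of points of the
square, and for the energies of probability measures on it.
-/

set_option autoImplicit false

noncomputable section

namespace Pool.Agent.Work.MP_82f4f8_an

open Real MeasureTheory Set Filter Topology

namespace Full

/-- the regularised potential of the equilibrium measure on the square -/
lemma kap_pot (H : PsiFacts) : ∃ C : ℝ, 0 < C ∧ ∀ δ : ℝ, 0 < δ → δ ≤ 2 → ∀ z ∈ Gam,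
    -(C * δ ^ (2 / 3 : ℝ)) ≤ ∫ s, kap δ (z - zeta s) ∂mu := by
  obtain ⟨C, hC, hU⟩ := UU_out H
  refine ⟨C, hC, fun δ hδ hδ2 z hz => ?_⟩
  obtain ⟨t, rfl⟩ := zeta_surj hz
  have h1 := int_log_le H t hδ
  have h2 := hU δ hδ hδ2 t
  have hr := rho_nonneg t
  have h3 : C * δ * (rho t + δ) ^ (-(1 / 3) : ℝ) ≤ C * δ ^ (2 / 3 : ℝ) := by
    have h4 : (rho t + δ) ^ (-(1 / 3) : ℝ) ≤ δ ^ (-(1 / 3) : ℝ) :=
      Real.rpow_le_rpow_of_nonpos hδ (by linarith) (by norm_num)
    have h5 : δ * δ ^ (-(1 / 3) : ℝ) = δ ^ (2 / 3 : ℝ) := by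
      have : (2 / 3 : ℝ) = 1 + (-(1 / 3)) := by norm_num
      rw [this, Real.rpow_add hδ, Real.rpow_one]
    calc C * δ * (rho t + δ) ^ (-(1 / 3) : ℝ) ≤ C * δ * δ ^ (-(1 / 3) : ℝ) :=
          mul_le_mul_of_nonneg_left h4 (by positivity)
      _ = C * δ ^ (2 / 3 : ℝ) := by rw [mul_assoc, h5]
  have hi1 := integrable_LL t
  have hb : ∀ s, ‖zeta t - zeta s‖ ≤ 4 * aa := fun s => by
    have h1 := norm_sub_le (zeta t) (zeta s)
    have h2 := norm_zeta_le t
    have h3 := norm_zeta_le s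
    linarith
  have hk : Integrable (fun s => kap δ (zeta t - zeta s)) mu :=
    HarnackAux.int_kap mu (measurable_const.sub cont_zeta.measurable) hb hδ
  have e : ∫ s, Real.log (1 + δ ^ 2 / ‖zeta t - zeta s‖ ^ 2) ∂mu
      = ∫ s, (-2 * kap δ (zeta t - zeta s) - 2 * LL t s) ∂mu := by
    apply integral_congr_ae
    filter_upwards [ae_ne_mu (zeta t)] with s hs
    have hN : 0 < ‖zeta t - zeta s‖ := norm_pos_iff.2 (sub_ne_zero.2 hs)
    have e1 : ‖zeta t - zeta s‖ ^ 2 + δ ^ 2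
        = ‖zeta t - zeta s‖ ^ 2 * (1 + δ ^ 2 / ‖zeta t - zeta s‖ ^ 2) := by
      field_simp
    unfold kap LL
    rw [e1, Real.log_mul (by positivity) (by positivity), Real.log_pow]
    push_cast
    ring
  rw [integral_sub (hk.const_mul _) (hi1.const_mul _), integral_const_mul, integral_const_mul,
    mean_mu H] at e
  linarith

/-- upper bound for the products of distances -/
lemma pair_sum_le (H : PsiFacts) : ∃ C : ℝ, 0 < C ∧ ∀ (n : ℕ) (q : Fin n → ℂ), (∀ k, q k ∈ Gam) →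
    Function.Injective q → ∀ δ : ℝ, 0 < δ → δ ≤ 2 →
    ∑ j, ∑ k, Real.log ‖q j - q k‖ ≤ n * Real.log (1 / δ) + n ^ 2 * (C * δ ^ (2 / 3 : ℝ)) := by
  obtain ⟨C, hC, hk⟩ := kap_pot H
  refine ⟨2 * C, by positivity, fun n q hq hinj δ hδ hδ2 => ?_⟩
  have h := kap_pos mu q zeta cont_zeta.measurable ⟨2 * aa, norm_zeta_le⟩ hδ
  have h1 : ∑ j, ∑ k, kap δ (q j - q k)
      ≤ n * Real.log (1 / δ) - ∑ j, ∑ k, Real.log ‖q j - q k‖ := by
    have h0 : ∀ j, ∑ k, kap δ (q j - q k) ≤ Real.log (1 / δ) - ∑ k, Real.log ‖q j - q k‖ := by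
      intro j
      rw [← Finset.add_sum_erase _ _ (Finset.mem_univ j),
        ← Finset.add_sum_erase _ (fun k => Real.log ‖q j - q k‖) (Finset.mem_univ j)]
      simp only [sub_self, norm_zero, Real.log_zero, zero_add]
      rw [HarnackAux.kap_zero]
      have h5 : ∑ k ∈ Finset.univ.erase j, kap δ (q j - q k)
          ≤ ∑ k ∈ Finset.univ.erase j, -Real.log ‖q j - q k‖ :=
        Finset.sum_le_sum fun k hk => HarnackAux.kap_le
          (sub_ne_zero.2 fun h => (Finset.ne_of_mem_erase hk) (hinj h).symm) δ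
      rw [Finset.sum_neg_distrib] at h5
      linarith
    calc ∑ j, ∑ k, kap δ (q j - q k)
        ≤ ∑ j, (Real.log (1 / δ) - ∑ k, Real.log ‖q j - q k‖) :=
          Finset.sum_le_sum fun j _ => h0 j
      _ = n * Real.log (1 / δ) - ∑ j, ∑ k, Real.log ‖q j - q k‖ := by
          rw [Finset.sum_sub_distrib]
          simp
  have h2 : -(n * (C * δ ^ (2 / 3 : ℝ))) ≤ ∑ j, ∫ s, kap δ (q j - zeta s) ∂mu := by
    calc -(n * (C * δ ^ (2 / 3 : ℝ))) = ∑ j : Fin n, -(C * δ ^ (2 / 3 : ℝ)) := by simp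
      _ ≤ _ := Finset.sum_le_sum fun j _ => hk δ hδ hδ2 _ (hq j)
  have h3 : ∫ s, ∫ s', kap δ (zeta s - zeta s') ∂mu ∂mu ≤ 0 := by
    apply integral_nonpos
    intro t
    have hb : ∀ s, ‖zeta t - zeta s‖ ≤ 4 * aa := fun s => by
      have h1 := norm_sub_le (zeta t) (zeta s)
      have h2 := norm_zeta_le t
      have h3 := norm_zeta_le s
      linarith
    have hk : Integrable (fun s => kap δ (zeta t - zeta s)) mu :=
      HarnackAux.int_kap mu (measurable_const.sub cont_zeta.measurable) hb hδ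
    have h6 : ∫ s, kap δ (zeta t - zeta s) ∂mu ≤ ∫ s, -LL t s ∂mu := by
      apply integral_mono_ae hk (integrable_LL t).neg
      filter_upwards [ae_ne_mu (zeta t)] with s hs
      exact HarnackAux.kap_le (sub_ne_zero.2 hs) δ
    rw [integral_neg, mean_mu H, neg_zero] at h6
    exact h6
  have hn : (0 : ℝ) ≤ n := Nat.cast_nonneg n
  have h4 : (n : ℝ) ^ 2 * ∫ s, ∫ s', kap δ (zeta s - zeta s') ∂mu ∂mu ≤ 0 :=
    mul_nonpos_of_nonneg_of_nonpos (by positivity) h3
  have h5 : -(2 * (n : ℝ) * (∑ j, ∫ s, kap δ (q j - zeta s) ∂mu))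
      ≤ (n : ℝ) ^ 2 * (2 * C * δ ^ (2 / 3 : ℝ)) := by
    have := mul_le_mul_of_nonneg_left h2 (by positivity : (0 : ℝ) ≤ 2 * n)
    nlinarith
  linarith

/-- the error term -/
lemma ee_tendsto (C : ℝ) :
    Tendsto (fun n : ℕ => (Real.log n + C * (n : ℝ) ^ (1 / 3 : ℝ)) / ((n : ℝ) - 1)) atTop (𝓝 0) := by
  have h1 : Tendsto (fun x : ℝ => Real.log x ^ 1 / (1 * x + (-1))) atTop (𝓝 0) :=
    Real.tendsto_pow_log_div_mul_add_atTop 1 (-1) 1 one_ne_zero
  have h2 : Tendsto (fun x : ℝ => x ^ (-(2 / 3) : ℝ)) atTop (𝓝 0) :=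
    tendsto_rpow_neg_atTop (by norm_num)
  have h3 : Tendsto (fun x : ℝ => 1 + (x - 1)⁻¹) atTop (𝓝 (1 + 0)) :=
    tendsto_const_nhds.add (tendsto_inv_atTop_zero.comp (tendsto_atTop_add_const_right _ _ tendsto_id))
  have h4 : Tendsto (fun x : ℝ => Real.log x ^ 1 / (1 * x + (-1))
      + C * (x ^ (-(2 / 3) : ℝ) * (1 + (x - 1)⁻¹))) atTop (𝓝 (0 + C * (0 * (1 + 0)))) :=
    h1.add ((h2.mul h3).const_mul C)
  have h5 : Tendsto (fun x : ℝ => (Real.log x + C * x ^ (1 / 3 : ℝ)) / (x - 1)) atTop (𝓝 0) := by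
    have e0 : (0 + C * (0 * (1 + 0)) : ℝ) = 0 := by ring
    rw [e0] at h4
    refine h4.congr' ?_
    filter_upwards [eventually_gt_atTop 1] with x hx
    have hx0 : 0 < x := by linarith
    have hx1 : x - 1 ≠ 0 := by linarith
    have e1 : x ^ (1 / 3 : ℝ) = x ^ (-(2 / 3) : ℝ) * x := by
      have : (1 / 3 : ℝ) = -(2 / 3) + 1 := by norm_num
      rw [this, Real.rpow_add hx0, Real.rpow_one]
    rw [e1, one_mul, pow_one, ← sub_eq_add_neg]
    field_simp
    ring
  exact h5.comp tendsto_natCast_atTop_atTop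

lemma pair_sum_le' (H : PsiFacts) : ∃ C : ℝ, 0 < C ∧ ∀ (n : ℕ), 2 ≤ n → ∀ (q : Fin n → ℂ),
    (∀ k, q k ∈ Gam) → Function.Injective q →
    ∑ j, ∑ k, Real.log ‖q j - q k‖
      ≤ n * ((n : ℝ) - 1) * ((Real.log n + C * (n : ℝ) ^ (1 / 3 : ℝ)) / ((n : ℝ) - 1)) := by
  obtain ⟨C, hC, h⟩ := pair_sum_le H
  refine ⟨C, hC, fun n hn q hq hinj => ?_⟩
  have hn2 : (2 : ℝ) ≤ n := by exact_mod_cast hn
  have hn0 : (0 : ℝ) < n := by linarith
  have h1 := h n q hq hinj (1 / n) (by positivity) (by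
    rw [div_le_iff₀ hn0]; linarith)
  refine le_trans h1 (le_of_eq ?_)
  have e1 : (1 / (n : ℝ)) ^ (2 / 3 : ℝ) = (n : ℝ) ^ (-(2 / 3) : ℝ) := by
    rw [one_div, Real.inv_rpow hn0.le, Real.rpow_neg hn0.le]
  have e2 : (n : ℝ) ^ (1 / 3 : ℝ) = (n : ℝ) ^ (-(2 / 3) : ℝ) * n := by
    have : (1 / 3 : ℝ) = -(2 / 3) + 1 := by norm_num
    rw [this, Real.rpow_add hn0, Real.rpow_one]
  rw [e1, e2, one_div_one_div]
  have hn1 : (n : ℝ) - 1 ≠ 0 := by linarith
  field_simp

/-- law of two coordinates -/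
lemma map_pair {n : ℕ} (ν : Measure ℂ) [IsProbabilityMeasure ν] {j k : Fin n} (hjk : j ≠ k) :
    MeasurePreserving (fun q : Fin n → ℂ => (q j, q k)) (Measure.pi fun _ => ν) (ν.prod ν) := by
  refine ⟨(measurable_pi_apply j).prodMk (measurable_pi_apply k), ?_⟩
  have h := (ProbabilityTheory.iIndepFun_pi (μ := fun _ : Fin n => ν)
    (X := fun _ (x : ℂ) => x) (fun _ => aemeasurable_id)).indepFun hjk
  rw [ProbabilityTheory.indepFun_iff_map_prod_eq_prod_map_map
    (measurable_pi_apply j).aemeasurable (measurable_pi_apply k).aemeasurable] at h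
  have e := fun i : Fin n => (measurePreserving_eval (fun _ : Fin n => ν) i).map_eq
  have ej : (Measure.pi fun _ : Fin n => ν).map (fun q => q j) = ν := e j
  have ek : (Measure.pi fun _ : Fin n => ν).map (fun q => q k) = ν := e k
  rw [h, ej, ek]

lemma diag_null (ν : Measure ℂ) [IsProbabilityMeasure ν] (hat : ∀ z, ν {z} = 0) :
    ∀ᵐ q ∂(ν.prod ν), q.1 ≠ q.2 := by
  have hm : MeasurableSet {q : ℂ × ℂ | ¬ (q.1 ≠ q.2)} := by
    simp only [ne_eq, not_not]
    exact (isClosed_eq continuous_fst continuous_snd).measurableSet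
  rw [ae_iff, Measure.prod_apply hm]
  simp only [ne_eq, not_not, preimage_setOf_eq]
  have h0 : ∀ x : ℂ, ν {y | x = y} = 0 := fun x => by
    have e : {y | x = y} = {x} := by ext y; simp [eq_comm]
    rw [e, hat]
  rw [lintegral_congr h0]
  simp

/-- every measure on the square has nonnegative energy -/
theorem energy_nonpos (H : PsiFacts) (ν : Measure ℂ) [IsProbabilityMeasure ν] (hν : ν Gamᶜ = 0)
    (hat : ∀ z, ν {z} = 0)
    (hi : Integrable (fun q : ℂ × ℂ => Real.log ‖q.1 - q.2‖) (ν.prod ν)) :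
    ∫ q, Real.log ‖q.1 - q.2‖ ∂(ν.prod ν) ≤ 0 := by
  obtain ⟨C, hC, h⟩ := pair_sum_le' H
  refine ge_of_tendsto (ee_tendsto C) ?_
  filter_upwards [eventually_ge_atTop 2] with n hn
  have hn2 : (2 : ℝ) ≤ n := by exact_mod_cast hn
  set P : Measure (Fin n → ℂ) := Measure.pi fun _ => ν with hP
  set I : ℝ := ∫ q, Real.log ‖q.1 - q.2‖ ∂(ν.prod ν) with hI
  have hint : ∀ j k : Fin n, Integrable (fun q : Fin n → ℂ => Real.log ‖q j - q k‖) P := by
    intro j k
    rcases eq_or_ne j k with rfl | hjk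
    · simp
    · exact (map_pair ν hjk).integrable_comp_of_integrable hi
  have hval : ∀ j k : Fin n, ∫ q, Real.log ‖q j - q k‖ ∂P = if j = k then 0 else I := by
    intro j k
    split_ifs with hjk
    · subst hjk
      simp
    · have e := (map_pair ν hjk).map_eq
      rw [hI, ← e, integral_map (map_pair ν hjk).measurable.aemeasurable]
      rw [e]
      exact hi.aestronglyMeasurable
  have h1 : ∫ q, ∑ j, ∑ k, Real.log ‖q j - q k‖ ∂P = n * ((n : ℝ) - 1) * I := by
    rw [integral_finset_sum _ fun j _ => integrable_finset_sum _ fun k _ => hint j k]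
    have : ∀ j : Fin n, ∫ q, ∑ k, Real.log ‖q j - q k‖ ∂P = ((n : ℝ) - 1) * I := by
      intro j
      rw [integral_finset_sum _ fun k _ => hint j k]
      simp only [hval]
      rw [← Finset.add_sum_erase _ _ (Finset.mem_univ j)]
      simp only [if_true, zero_add]
      have e : ∀ k ∈ Finset.univ.erase j, (if j = k then (0:ℝ) else I) = I := fun k hk =>
        if_neg fun h => (Finset.ne_of_mem_erase hk) h.symm
      rw [Finset.sum_congr rfl e, Finset.sum_const, Finset.card_erase_of_mem (Finset.mem_univ j),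
        Finset.card_univ, Fintype.card_fin, nsmul_eq_mul, Nat.cast_sub (by omega)]
      simp
    simp only [this]
    simp
    ring
  have hae : ∀ᵐ q ∂P, (∀ k, q k ∈ Gam) ∧ Function.Injective q := by
    have h2 : ∀ᵐ q ∂P, ∀ k, q k ∈ Gam := by
      rw [ae_all_iff]
      intro k
      have hk : ∀ᵐ x ∂ν, x ∈ Gam := by
        rw [ae_iff]
        exact hν
      exact (measurePreserving_eval (fun _ : Fin n => ν) k).quasiMeasurePreserving.ae hk
    have h3 : ∀ᵐ q ∂P, ∀ j k : Fin n, j ≠ k → q j ≠ q k := by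
      rw [ae_all_iff]
      intro j
      rw [ae_all_iff]
      intro k
      by_cases hjk : j = k
      · exact Filter.Eventually.of_forall fun q hne => absurd hjk hne
      · filter_upwards [(map_pair ν hjk).quasiMeasurePreserving.ae (diag_null ν hat)] with q hq _
        exact hq
    filter_upwards [h2, h3] with q hq2 hq3
    refine ⟨hq2, fun j k hjk => ?_⟩
    by_contra hne
    exact hq3 j k hne hjk
  have h2 : ∫ q, ∑ j, ∑ k, Real.log ‖q j - q k‖ ∂P ≤
      n * ((n : ℝ) - 1) * ((Real.log n + C * (n : ℝ) ^ (1 / 3 : ℝ)) / ((n : ℝ) - 1)) := by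
    have h4 : ∫ q, ∑ j, ∑ k, Real.log ‖q j - q k‖ ∂P ≤ ∫ _q, n * ((n : ℝ) - 1) *
        ((Real.log n + C * (n : ℝ) ^ (1 / 3 : ℝ)) / ((n : ℝ) - 1)) ∂P := by
      apply integral_mono_ae
      · exact integrable_finset_sum _ fun j _ => integrable_finset_sum _ fun k _ => hint j k
      · exact integrable_const _
      · filter_upwards [hae] with q hq
        exact h n hn q hq.1 hq.2
    refine le_trans h4 (le_of_eq ?_)
    simp
  rw [h1] at h2
  have hpos : 0 < (n : ℝ) * ((n : ℝ) - 1) := by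
    apply mul_pos <;> linarith
  exact le_of_mul_le_mul_left h2 hpos

/-- the products of distances are at most `exp (o(n^2))` -/
theorem prod_le (H : PsiFacts) : ∃ C : ℝ, 0 < C ∧ ∀ (n : ℕ), 2 ≤ n → ∀ (q : Fin n → ℂ),
    (∀ k, q k ∈ Gam) → (∏ j, ∏ k ∈ Finset.Ioi j, ‖q j - q k‖)
      ≤ Real.exp (n * ((n : ℝ) - 1) / 2 *
        ((Real.log n + C * (n : ℝ) ^ (1 / 3 : ℝ)) / ((n : ℝ) - 1))) := by
  obtain ⟨C, hC, h⟩ := pair_sum_le' H
  refine ⟨C, hC, fun n hn q hq => ?_⟩
  by_cases hinj : Function.Injective q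
  · have h1 := h n hn q hq hinj
    rw [sum_pairs, sum_log_eq hinj] at h1
    rw [← Real.log_le_iff_le_exp (prod_pos_of_injective hinj)]
    linarith
  · have h0 : (∏ j, ∏ k ∈ Finset.Ioi j, ‖q j - q k‖) = 0 := by
      simp only [Function.Injective, not_forall] at hinj
      obtain ⟨a, b, hab, hne⟩ := hinj
      rcases lt_or_gt_of_ne hne with hlt | hlt
      · exact Finset.prod_eq_zero (Finset.mem_univ a)
          (Finset.prod_eq_zero (Finset.mem_Ioi.2 hlt) (by rw [hab, sub_self, norm_zero]))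
      · exact Finset.prod_eq_zero (Finset.mem_univ b)
          (Finset.prod_eq_zero (Finset.mem_Ioi.2 hlt) (by rw [hab, sub_self, norm_zero]))
    rw [h0]
    exact (Real.exp_pos _).le

lemma isCompact_Gam : IsCompact Gam := by
  have h : Gam = zeta '' (Icc 0 (2 * π)) := by
    ext z
    constructor
    · intro hz
      obtain ⟨t, rfl⟩ := zeta_surj hz
      have hper : Function.Periodic zeta (2 * π) := zeta_two_pi
      obtain ⟨s, hs, hst⟩ := hper.exists_mem_Ico₀ (by positivity) t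
      exact ⟨s, ⟨hs.1, hs.2.le⟩, hst.symm⟩
    · rintro ⟨t, _, rfl⟩
      exact zeta_mem t
  rw [h]
  exact isCompact_Icc.image cont_zeta

/-- Fekete tuples of the square exist -/
theorem exists_fek (n : ℕ) : ∃ p : Fin n → ℂ, IsFekP n p := by
  have hc : IsCompact (Set.pi univ fun _ : Fin n => Gam) := isCompact_univ_pi fun _ => isCompact_Gam
  have hne : (Set.pi univ fun _ : Fin n => Gam).Nonempty :=
    ⟨fun _ => zeta 0, fun _ _ => zeta_mem 0⟩
  have hcont : Continuous fun q : Fin n → ℂ => ∏ j, ∏ k ∈ Finset.Ioi j, ‖q j - q k‖ := by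
    fun_prop
  obtain ⟨p, hp, hmax⟩ := hc.exists_isMaxOn hne hcont.continuousOn
  refine ⟨p, fun k => hp k (mem_univ k), fun q hq => ?_⟩
  exact hmax (fun k _ => hq k)

/-- there are tuples with product at least `1` -/
theorem exists_prod_ge (H : PsiFacts) {n : ℕ} (hn : 2 ≤ n) : ∃ p : Fin n → ℂ, (∀ k, p k ∈ Gam) ∧
    1 ≤ ∏ j, ∏ k ∈ Finset.Ioi j, ‖p j - p k‖ := by
  obtain ⟨p, hp⟩ := exists_fek n
  refine ⟨p, hp.mem, ?_⟩
  have h := hp.energy_ge hn fun τ h0 h1 => LL_diag_mean H h0 h1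
  rw [sum_pairs, sum_log_eq hp.injective] at h
  have hn2 : (2 : ℝ) ≤ n := by exact_mod_cast hn
  have h0 : 0 ≤ (n : ℝ) * Real.log n := mul_nonneg (by linarith) (Real.log_nonneg (by linarith))
  have h1 : 0 ≤ Real.log (∏ j, ∏ k ∈ Finset.Ioi j, ‖p j - p k‖) := by linarith
  exact (Real.log_nonneg_iff (prod_pos_of_injective hp.injective)).1 h1

/-- the equilibrium measure of the square -/
def om : Measure ℂ := mu.map zeta

instance : IsProbabilityMeasure om := Measure.isProbabilityMeasure_map cont_zeta.measurable.aemeasurable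

lemma om_compl : om Gamᶜ = 0 := by
  rw [om, Measure.map_apply cont_zeta.measurable isCompact_Gam.measurableSet.compl]
  have : zeta ⁻¹' Gamᶜ = ∅ := by
    ext t
    simp [zeta_mem t]
  rw [this, measure_empty]

lemma om_atom (z : ℂ) : om {z} = 0 := by
  rw [om, Measure.map_apply cont_zeta.measurable (measurableSet_singleton z)]
  have h := ae_ne_mu z
  rw [ae_iff] at h
  have e : zeta ⁻¹' {z} = {a | ¬ (z ≠ zeta a)} := by
    ext t
    simp [eq_comm]
  rw [e]
  exact h

lemma om_prod : om.prod om = (mu.prod mu).map (Prod.map zeta zeta) := by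
  rw [om, Measure.map_prod_map _ _ cont_zeta.measurable cont_zeta.measurable]

lemma meas_log : Measurable fun q : ℂ × ℂ => Real.log ‖q.1 - q.2‖ :=
  Real.measurable_log.comp (measurable_fst.sub measurable_snd).norm

lemma om_integrable : Integrable (fun q : ℂ × ℂ => Real.log ‖q.1 - q.2‖) (om.prod om) := by
  rw [om_prod, integrable_map_measure meas_log.aestronglyMeasurable
    (cont_zeta.measurable.prodMap cont_zeta.measurable).aemeasurable]
  exact integrable_LL2

lemma om_integral (H : PsiFacts) : ∫ q, Real.log ‖q.1 - q.2‖ ∂(om.prod om) = 0 := by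
  rw [om_prod, integral_map (cont_zeta.measurable.prodMap cont_zeta.measurable).aemeasurable
    meas_log.aestronglyMeasurable]
  have e : ∀ p : ℝ × ℝ, Real.log ‖(Prod.map zeta zeta p).1 - (Prod.map zeta zeta p).2‖
      = LL p.1 p.2 := fun p => rfl
  simp only [e]
  rw [integral_prod _ integrable_LL2]
  simp only [mean_mu H, integral_zero]

end Full

end Pool.Agent.Work.MP_82f4f8_an
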