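import Pool.Agent.Work.MP_82f4f8_an.Full.Cap

/-!
Geometry: arbitrary squares as similar images of the square of half side `aa`, their exterior domain,
and the exterior conformal map.
-/

set_option autoImplicit false

noncomputable section

namespace Pool.Agent.Work.MP_82f4f8_an

open Real MeasureTheory Set Filter Topology

namespace Full

open IntRep (Sq CSq isOpen_Sq isClosed_CSq bdd_Sq)

/-- the similarity `z ↦ c + l z` -/
def T (c l : ℂ) (hl : l ≠ 0) : ℂ ≃ₜ ℂ := (Homeomorph.mulLeft₀ l hl).trans (Homeomorph.addLeft c)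

variable {c l : ℂ} {hl : l ≠ 0}

lemma T_apply (z : ℂ) : T c l hl z = c + l * z := rfl

lemma T_sub (z w : ℂ) : ‖T c l hl z - T c l hl w‖ = ‖l‖ * ‖z - w‖ := by
  rw [T_apply, T_apply, ← norm_mul]
  congr 1
  ring

lemma T_symm_sub (z w : ℂ) : ‖l‖ * ‖(T c l hl).symm z - (T c l hl).symm w‖ = ‖z - w‖ := by
  rw [← T_sub (c := c) (hl := hl), Homeomorph.apply_symm_apply, Homeomorph.apply_symm_apply]

/-- the first vertex -/
def v0 : ℂ := (aa : ℂ) * (1 + Complex.I)

lemma CSq_eq : CSq = convexHull ℝ {v0, Complex.I * v0, -v0, -(Complex.I * v0)} := by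
  have ha := aa_pos
  have e1 : ({v0, Complex.I * v0, -v0, -(Complex.I * v0)} : Set ℂ)
      = ({-aa, aa} : Set ℝ) ×ℂ ({-aa, aa} : Set ℝ) := by
    ext z
    simp only [mem_insert_iff, mem_singleton_iff, Complex.mem_reProdIm, Complex.ext_iff, v0]
    simp
    constructor
    · rintro (h | h | h | h) <;> simp [h.1, h.2]
    · rintro ⟨h | h, h' | h'⟩ <;> simp [h, h']
  rw [e1, Complex.convexHull_reProdIm, convexHull_pair, segment_eq_Icc (by linarith)]
  ext z
  simp only [CSq, mem_ofPred_eq, Complex.mem_reProdIm, mem_Icc, max_le_iff, abs_le]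

lemma frontier_CSq : frontier CSq = Gam := by
  have ha := aa_pos
  have e : CSq = (Icc (-aa) aa) ×ℂ (Icc (-aa) aa) := by
    ext z
    simp only [CSq, mem_ofPred_eq, Complex.mem_reProdIm, mem_Icc, max_le_iff, abs_le]
  have hi : interior CSq = Sq := by
    rw [e, Complex.interior_reProdIm, interior_Icc]
    ext z
    simp only [Sq, mem_ofPred_eq, Complex.mem_reProdIm, mem_Ioo, max_lt_iff, abs_lt]
  rw [frontier, isClosed_CSq.closure_eq, hi]
  ext z
  simp only [CSq, Sq, Gam, mem_diff, mem_ofPred_eq, not_lt]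
  exact ⟨fun h => le_antisymm h.1 h.2, fun h => ⟨h.le, h.ge⟩⟩

/-- every square is a similar image of `Gam` -/
lemma square_eq (c l : ℂ) (hl : l ≠ 0) :
    frontier (convexHull ℝ {c + l * v0, c + Complex.I * (l * v0), c - l * v0,
      c - Complex.I * (l * v0)}) = T c l hl '' Gam := by
  rw [← frontier_CSq, Homeomorph.image_frontier, CSq_eq]
  congr 1
  have h := AffineMap.image_convexHull (𝕜 := ℝ)
    ((AffineMap.const ℝ ℂ c) + (LinearMap.mulLeft ℝ l).toAffineMap)
    ({v0, Complex.I * v0, -v0, -(Complex.I * v0)} : Set ℂ)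
  have e1 : ∀ s : Set ℂ, ((AffineMap.const ℝ ℂ c) + (LinearMap.mulLeft ℝ l).toAffineMap) '' s
      = T c l hl '' s := fun s => by
    apply image_congr
    intro x _
    simp [T_apply]
  rw [e1, e1] at h
  rw [h]
  congr 1
  simp only [image_insert_eq, image_singleton, T_apply]
  congr 1
  congr 1
  · ring
  · congr 1
    · ring
    · congr 1
      ring

lemma disj : Disjoint Sq Ext := by
  rw [Set.disjoint_left]
  intro z h1 h2
  simp only [Sq, Ext, mem_ofPred_eq] at h1 h2
  exact absurd h1 (not_lt.2 h2.le)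

lemma compl_eq : (T c l hl '' Gam)ᶜ = T c l hl '' Sq ∪ T c l hl '' Ext := by
  rw [← image_compl_eq (T c l hl).bijective, ← image_union]
  congr 1
  ext z
  simp only [Gam, Sq, Ext, mem_compl_iff, mem_ofPred_eq, mem_union]
  exact ne_iff_lt_or_gt

lemma Ext_unbounded : ¬ Bornology.IsBounded (T c l hl '' Ext) := by
  intro h
  rw [isBounded_iff_forall_norm_le] at h
  obtain ⟨R, hR⟩ := h
  have ha := aa_pos
  have hl0 : 0 < ‖l‖ := norm_pos_iff.2 hl
  set r : ℝ := aa + 1 + (|R| + ‖c‖) / ‖l‖ with hr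
  have hrp : aa < r := by
    have : 0 ≤ (|R| + ‖c‖) / ‖l‖ := by positivity
    rw [hr]; linarith
  have h1 : ((r : ℝ) : ℂ) ∈ Ext := by
    simp only [Ext, mem_ofPred_eq, Complex.ofReal_re, Complex.ofReal_im, abs_zero]
    exact lt_max_of_lt_left (lt_of_lt_of_le hrp (le_abs_self r))
  have h2 := hR _ (mem_image_of_mem _ h1)
  rw [T_apply] at h2
  have h3 : ‖l‖ * r ≤ R + ‖c‖ := by
    have e : l * ((r : ℝ) : ℂ) = (c + l * ((r : ℝ) : ℂ)) - c := by ring
    have h4 : ‖l * ((r : ℝ) : ℂ)‖ ≤ R + ‖c‖ := by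
      rw [e]
      exact le_trans (norm_sub_le _ _) (by linarith)
    rwa [norm_mul, Complex.norm_real, Real.norm_eq_abs, abs_of_pos (by linarith)] at h4
  have h5 : ‖l‖ * r = ‖l‖ * (aa + 1) + (|R| + ‖c‖) := by
    rw [hr]
    field_simp
  have h6 : R ≤ |R| := le_abs_self R
  nlinarith [mul_pos hl0 (by linarith : (0:ℝ) < aa + 1)]

lemma isBounded_image_Sq : Bornology.IsBounded (T c l hl '' Sq) := by
  obtain ⟨R, hR⟩ := isBounded_iff_forall_norm_le.1 bdd_Sq
  refine isBounded_iff_forall_norm_le.2 ⟨‖c‖ + ‖l‖ * R, ?_⟩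
  rintro _ ⟨x, hx, rfl⟩
  rw [T_apply]
  refine le_trans (norm_add_le _ _) ?_
  rw [norm_mul]
  have := mul_le_mul_of_nonneg_left (hR x hx) (norm_nonneg l)
  linarith

/-- the unbounded component of the complement of a square -/
lemma exterior_eq :
    {z | ¬ Bornology.IsBounded (connectedComponentIn (T c l hl '' Gam)ᶜ z)} = T c l hl '' Ext := by
  have hcompl := compl_eq (c := c) (l := l) (hl := hl)
  ext z
  simp only [mem_ofPred_eq]
  constructor
  · intro h
    by_contra hz
    apply h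
    by_cases hzG : z ∈ (T c l hl '' Gam)ᶜ
    · have hzS : z ∈ T c l hl '' Sq := by
        rw [hcompl] at hzG
        exact hzG.resolve_right hz
      refine isBounded_image_Sq.subset (t := T c l hl '' Sq) ?_
      refine isPreconnected_connectedComponentIn.subset_left_of_subset_union
        ((T c l hl).isOpenMap _ isOpen_Sq) ((T c l hl).isOpenMap _ isOpen_Ext)
        ((Set.disjoint_image_iff (T c l hl).injective).2 disj) ?_
        ⟨z, mem_connectedComponentIn hzG, hzS⟩
      rw [← hcompl]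
      exact connectedComponentIn_subset _ _
    · rw [connectedComponentIn_eq_empty hzG]
      exact Bornology.isBounded_empty
  · intro hz h
    apply Ext_unbounded (c := c) (l := l) (hl := hl)
    refine h.subset ?_
    apply (preconn_Ext.image _ (T c l hl).continuous.continuousOn).subset_connectedComponentIn hz
    rw [hcompl]
    exact subset_union_right

lemma norm_psi_sub {w : ℂ} (hw : 1 ≤ ‖w‖) : ‖psi w - w‖ ≤ 1 := by
  rw [psi_eq]
  have := SS_norm_le (inv_norm_le hw)
  rwa [sub_sub_cancel_left, norm_neg]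

/-- the exterior map of `Gam` is asymptotic to a rotation -/
lemma norm_phi (H : PsiFacts) {φ : ℂ → ℂ}
    (hd : DifferentiableOn ℂ φ Ext) (hi : Set.InjOn φ Ext) (him : φ '' Ext = {w : ℂ | 1 < ‖w‖})
    (hinf : Filter.Tendsto (fun z => ‖φ z‖) (Filter.cocompact ℂ) Filter.atTop)
    {z : ℂ} (hz : z ∈ Ext) : |‖φ z‖ - ‖z‖| ≤ 1 := by
  obtain ⟨w, hw, rfl⟩ := H.surj z hz
  rw [log_phi H hd hi him hinf hw]
  rw [abs_sub_comm]
  exact le_trans (abs_norm_sub_norm_le _ _) (norm_psi_sub hw.le)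

lemma deriv_ne {w : ℂ} (hw : 1 < ‖w‖) : ((1 + (w⁻¹) ^ 4) ^ (1 / 2 : ℂ)) ≠ 0 := by
  intro h
  rw [Complex.cpow_eq_zero_iff] at h
  have h1 : (w⁻¹) ^ 4 = -1 := by linear_combination h.1
  have h2 : ‖w⁻¹‖ ^ 4 = 1 := by rw [← norm_pow, h1]; simp
  have h3 : ‖w⁻¹‖ < 1 := inv_norm_lt hw
  have h4 : ‖w⁻¹‖ ^ 4 < 1 := pow_lt_one₀ (norm_nonneg _) h3 (by norm_num)
  linarith

/-- the exterior map exists -/
theorem exists_phi (H : PsiFacts) : ∃ φ : ℂ → ℂ, DifferentiableOn ℂ φ Ext ∧ Set.InjOn φ Ext ∧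
    φ '' Ext = {w : ℂ | 1 < ‖w‖} ∧ Tendsto φ (Bornology.cobounded ℂ) (Bornology.cobounded ℂ) := by
  classical
  set φ : ℂ → ℂ := fun z => if h : z ∈ Ext then (H.surj z h).choose else 0 with hφ
  have hs : ∀ z, z ∈ Ext → 1 < ‖φ z‖ ∧ psi (φ z) = z := fun z hz => by
    rw [hφ]
    simp only [dif_pos hz]
    exact (H.surj z hz).choose_spec
  have hl : ∀ w, 1 < ‖w‖ → φ (psi w) = w := fun w hw => by
    have h1 := hs (psi w) (H.maps w hw)
    exact H.inj (mem_ofPred.2 h1.1.le) (mem_ofPred.2 hw.le) h1.2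
  refine ⟨φ, ?_, ?_, ?_, ?_⟩
  · intro z hz
    obtain ⟨w, hw, rfl⟩ := H.surj z hz
    have hda : DifferentiableOn ℂ psi DD := fun w hw =>
      (H.deriv w hw).differentiableAt.differentiableWithinAt
    have han : AnalyticAt ℂ psi w := hda.analyticAt (isOpen_DD.mem_nhds hw)
    have hst : HasStrictDerivAt psi ((1 + (w⁻¹) ^ 4) ^ (1 / 2 : ℂ)) w := by
      have := han.hasStrictDerivAt
      rwa [(H.deriv w hw).deriv] at this
    have hne := deriv_ne hw
    have h1 := hst.to_localInverse hne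
    have h2 := hst.eventually_right_inverse hne
    have h0 : hst.localInverse _ _ _ hne (psi w) = w := (hst.eventually_left_inverse hne).self_of_nhds
    have h3 : ∀ᶠ x in 𝓝 (psi w), hst.localInverse _ _ _ hne x ∈ DD := by
      have hc : ContinuousAt (hst.localInverse _ _ _ hne) (psi w) := h1.hasDerivAt.continuousAt
      apply hc.eventually_mem
      rw [h0]
      exact isOpen_DD.mem_nhds hw
    have h4 : φ =ᶠ[𝓝 (psi w)] hst.localInverse _ _ _ hne := by
      filter_upwards [h2, h3] with x hx1 hx2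
      rw [← hx1, hl _ hx2, hx1]
    exact ((h1.hasDerivAt.congr_of_eventuallyEq h4).differentiableAt).differentiableWithinAt
  · intro x hx y hy hxy
    rw [← (hs x hx).2, ← (hs y hy).2, hxy]
  · ext w
    constructor
    · rintro ⟨z, hz, rfl⟩
      exact (hs z hz).1
    · intro hw
      exact ⟨psi w, H.maps w hw, hl w hw⟩
  · rw [← tendsto_norm_atTop_iff_cobounded]
    have h1 : Tendsto (fun z : ℂ => ‖z‖ - 1) (Bornology.cobounded ℂ) atTop :=
      tendsto_atTop_add_const_right _ _ tendsto_norm_cobounded_atTop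
    refine tendsto_atTop_mono' _ ?_ h1
    have h2 : ∀ᶠ z : ℂ in Bornology.cobounded ℂ, 2 * aa < ‖z‖ :=
      tendsto_norm_cobounded_atTop.eventually_gt_atTop _
    filter_upwards [h2] with z hz
    have hzE : z ∈ Ext := by
      simp only [Ext, mem_ofPred_eq]
      by_contra hcon
      rw [not_lt, max_le_iff] at hcon
      have := Complex.norm_le_abs_re_add_abs_im z
      linarith
    have h3 := hs z hzE
    have h4 := norm_psi_sub h3.1.le
    rw [h3.2] at h4
    have h5 := norm_sub_norm_le z (φ z)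
    linarith

end Full

end Pool.Agent.Work.MP_82f4f8_an
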