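import Pool.Agent.Work.MP_82f4f8_an.Full.Geom

/-!
The three capacities of a similar image of the square `Gam`.
-/

set_option autoImplicit false

noncomputable section

namespace Pool.Agent.Work.MP_82f4f8_an

open Real MeasureTheory Set Filter Topology

namespace Full

variable {c l : ℂ} {hl : l ≠ 0}

/-- energies under a similarity -/
lemma push (g : ℂ ≃ₜ ℂ) {r : ℝ} (hr : 0 < r) (hg : ∀ z w, ‖g z - g w‖ = r * ‖z - w‖)
    (ν : Measure ℂ) [IsProbabilityMeasure ν] (hat : ∀ z, ν {z} = 0)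
    (hi : Integrable (fun q : ℂ × ℂ => Real.log ‖q.1 - q.2‖) (ν.prod ν)) :
    (∀ z, ν.map g {z} = 0) ∧
    Integrable (fun q : ℂ × ℂ => Real.log ‖q.1 - q.2‖) ((ν.map g).prod (ν.map g)) ∧
    ∫ q, Real.log ‖q.1 - q.2‖ ∂((ν.map g).prod (ν.map g))
      = Real.log r + ∫ q, Real.log ‖q.1 - q.2‖ ∂(ν.prod ν) := by
  have hm : Measurable g := g.continuous.measurable
  have hp : (ν.map g).prod (ν.map g) = (ν.prod ν).map (Prod.map g g) :=
    Measure.map_prod_map _ _ hm hm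
  have hmm : AEMeasurable (Prod.map g g) (ν.prod ν) := (hm.prodMap hm).aemeasurable
  have hae : (fun q : ℂ × ℂ => Real.log ‖(Prod.map g g q).1 - (Prod.map g g q).2‖)
      =ᵐ[ν.prod ν] fun q => Real.log r + Real.log ‖q.1 - q.2‖ := by
    filter_upwards [diag_null ν hat] with q hq
    simp only [Prod.map_fst, Prod.map_snd]
    rw [hg, Real.log_mul hr.ne' (norm_pos_iff.2 (sub_ne_zero.2 hq)).ne']
  have hi2 : Integrable (fun q : ℂ × ℂ => Real.log r + Real.log ‖q.1 - q.2‖) (ν.prod ν) :=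
    (integrable_const _).add hi
  refine ⟨fun z => ?_, ?_, ?_⟩
  · rw [Measure.map_apply hm (measurableSet_singleton z)]
    have : g ⁻¹' {z} = {g.symm z} := by
      ext w
      simp only [mem_preimage, mem_singleton_iff]
      exact g.toEquiv.apply_eq_iff_eq_symm_apply
    rw [this, hat]
  · rw [hp, integrable_map_measure meas_log.aestronglyMeasurable hmm]
    exact hi2.congr hae.symm
  · rw [hp, integral_map hmm meas_log.aestronglyMeasurable, integral_congr_ae hae,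
      integral_add (integrable_const _) hi]
    simp

/-- the logarithm of the energy capacity -/
theorem isLUB_energy (H : PsiFacts) :
    IsLUB {x : ℝ | ∃ ν : Measure ℂ, IsProbabilityMeasure ν ∧ ν (T c l hl '' Gam)ᶜ = 0 ∧
      (∀ z, ν {z} = 0) ∧ Integrable (fun q : ℂ × ℂ => Real.log ‖q.1 - q.2‖) (ν.prod ν) ∧
      x = ∫ q, Real.log ‖q.1 - q.2‖ ∂(ν.prod ν)} (Real.log ‖l‖) := by
  have hl0 : 0 < ‖l‖ := norm_pos_iff.2 hl
  constructor
  · rintro x ⟨ν, hν, hνc, hat, hi, rfl⟩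
    have hg : ∀ z w, ‖(T c l hl).symm z - (T c l hl).symm w‖ = ‖l‖⁻¹ * ‖z - w‖ := fun z w => by
      rw [← T_symm_sub (c := c) (hl := hl) z w]
      field_simp
    obtain ⟨h1, h2, h3⟩ := push (T c l hl).symm (inv_pos.2 hl0) hg ν hat hi
    haveI : IsProbabilityMeasure (ν.map (T c l hl).symm) :=
      Measure.isProbabilityMeasure_map (T c l hl).symm.continuous.measurable.aemeasurable
    have h4 : ν.map (T c l hl).symm Gamᶜ = 0 := by
      rw [Measure.map_apply (T c l hl).symm.continuous.measurable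
        isCompact_Gam.measurableSet.compl]
      have : (T c l hl).symm ⁻¹' Gamᶜ = (T c l hl '' Gam)ᶜ := by
        rw [preimage_compl, Homeomorph.image_eq_preimage_symm]
      rw [this, hνc]
    have h5 := energy_nonpos H _ h4 h1 h2
    rw [h3, Real.log_inv] at h5
    linarith
  · intro b hb
    apply hb
    have hg : ∀ z w, ‖T c l hl z - T c l hl w‖ = ‖l‖ * ‖z - w‖ := T_sub
    obtain ⟨h1, h2, h3⟩ := push (T c l hl) hl0 hg om om_atom om_integrable
    refine ⟨om.map (T c l hl), Measure.isProbabilityMeasure_map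
      (T c l hl).continuous.measurable.aemeasurable, ?_, h1, h2, ?_⟩
    · rw [Measure.map_apply (T c l hl).continuous.measurable
        (isCompact_Gam.image (T c l hl).continuous).measurableSet.compl, preimage_compl,
        preimage_image_eq _ (T c l hl).injective, om_compl]
    · rw [h3, om_integral H, add_zero]

lemma sum_card (n : ℕ) : ((∑ j : Fin n, (Finset.Ioi j).card : ℕ) : ℝ) = n * ((n : ℝ) - 1) / 2 := by
  simp only [Fin.card_Ioi]
  rw [Fin.sum_univ_eq_sum_range (fun i => n - 1 - i) n, Finset.sum_range_reflect (fun i => i) n]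
  have h := Finset.sum_range_id_mul_two n
  rcases Nat.eq_zero_or_pos n with rfl | hn
  · simp
  · have h2 : ((∑ i ∈ Finset.range n, i : ℕ) : ℝ) * 2 = n * ((n : ℝ) - 1) := by
      have := congrArg (fun x : ℕ => (x : ℝ)) h
      simp only [Nat.cast_mul, Nat.cast_ofNat] at this
      rw [this, Nat.cast_sub hn]
      simp
    linarith

lemma prod_T {n : ℕ} (q : Fin n → ℂ) :
    (∏ j, ∏ k ∈ Finset.Ioi j, ‖T c l hl (q j) - T c l hl (q k)‖)
      = ‖l‖ ^ (∑ j : Fin n, (Finset.Ioi j).card) * ∏ j, ∏ k ∈ Finset.Ioi j, ‖q j - q k‖ := by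
  simp only [T_sub, Finset.prod_mul_distrib, Finset.prod_const, Finset.prod_pow_eq_pow_sum]

/-- the transfinite diameter -/
theorem tendsto_transfinite (H : PsiFacts) :
    Tendsto (fun n : ℕ => (⨆ z : Fin n → (T c l hl '' Gam : Set ℂ),
      ∏ j, ∏ k ∈ Finset.Ioi j, ‖(z j : ℂ) - z k‖) ^ (2 / ((n : ℝ) * (n - 1)))) atTop (𝓝 ‖l‖) := by
  have hl0 : 0 < ‖l‖ := norm_pos_iff.2 hl
  obtain ⟨C, hC, hle⟩ := prod_le H
  set e : ℕ → ℝ := fun n => (Real.log n + C * (n : ℝ) ^ (1 / 3 : ℝ)) / ((n : ℝ) - 1) with he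
  have hup : Tendsto (fun n => ‖l‖ * Real.exp (e n)) atTop (𝓝 (‖l‖ * Real.exp 0)) :=
    ((Real.continuous_exp.tendsto 0).comp (ee_tendsto C)).const_mul _
  rw [Real.exp_zero, mul_one] at hup
  have key : ∀ n : ℕ, 2 ≤ n → ∀ z : Fin n → (T c l hl '' Gam : Set ℂ),
      (∏ j, ∏ k ∈ Finset.Ioi j, ‖(z j : ℂ) - z k‖)
        ≤ ‖l‖ ^ (∑ j : Fin n, (Finset.Ioi j).card) * Real.exp (n * ((n : ℝ) - 1) / 2 * e n) := by
    intro n hn z
    choose q hq using fun k => (z k).2
    have e1 : ∀ k, (z k : ℂ) = T c l hl (q k) := fun k => (hq k).2.symm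
    simp only [e1]
    rw [prod_T]
    exact mul_le_mul_of_nonneg_left (hle n hn q fun k => (hq k).1) (by positivity)
  refine tendsto_of_tendsto_of_tendsto_of_le_of_le' tendsto_const_nhds hup ?_ ?_
  · filter_upwards [eventually_ge_atTop 2] with n hn
    have hn2 : (2 : ℝ) ≤ n := by exact_mod_cast hn
    have hN : 0 < (n : ℝ) * (n - 1) := by apply mul_pos <;> linarith
    have hn0 : (n : ℝ) ≠ 0 := by linarith
    have hn1 : (n : ℝ) - 1 ≠ 0 := by linarith
    obtain ⟨p, hp, hp1⟩ := exists_prod_ge H hn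
    have h1 : ‖l‖ ^ (∑ j : Fin n, (Finset.Ioi j).card) ≤ ⨆ z : Fin n → (T c l hl '' Gam : Set ℂ),
        ∏ j, ∏ k ∈ Finset.Ioi j, ‖(z j : ℂ) - z k‖ := by
      have h2 : BddAbove (range fun z : Fin n → (T c l hl '' Gam : Set ℂ) =>
          ∏ j, ∏ k ∈ Finset.Ioi j, ‖(z j : ℂ) - z k‖) := by
        refine ⟨‖l‖ ^ (∑ j : Fin n, (Finset.Ioi j).card) *
          Real.exp (n * ((n : ℝ) - 1) / 2 * e n), ?_⟩
        rintro _ ⟨z, rfl⟩
        exact key n hn z
      refine le_trans ?_ (le_ciSup h2 fun k => ⟨T c l hl (p k), mem_image_of_mem _ (hp k)⟩)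
      simp only
      rw [prod_T]
      exact le_mul_of_one_le_right (by positivity) hp1
    calc ‖l‖ = (‖l‖ ^ (∑ j : Fin n, (Finset.Ioi j).card)) ^ (2 / ((n : ℝ) * (n - 1))) := by
          rw [← Real.rpow_natCast, ← Real.rpow_mul hl0.le, sum_card]
          have : (n : ℝ) * (n - 1) / 2 * (2 / (n * (n - 1))) = 1 := by
            field_simp
          rw [this, Real.rpow_one]
      _ ≤ _ := Real.rpow_le_rpow (by positivity) h1 (by positivity)
  · filter_upwards [eventually_ge_atTop 2] with n hn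
    have hn2 : (2 : ℝ) ≤ n := by exact_mod_cast hn
    have hN : 0 < (n : ℝ) * (n - 1) := by apply mul_pos <;> linarith
    have hn0 : (n : ℝ) ≠ 0 := by linarith
    have hn1 : (n : ℝ) - 1 ≠ 0 := by linarith
    haveI : Nonempty (Fin n → (T c l hl '' Gam : Set ℂ)) :=
      ⟨fun _ => ⟨T c l hl (zeta 0), mem_image_of_mem _ (zeta_mem 0)⟩⟩
    have h1 : (⨆ z : Fin n → (T c l hl '' Gam : Set ℂ),
        ∏ j, ∏ k ∈ Finset.Ioi j, ‖(z j : ℂ) - z k‖)
        ≤ ‖l‖ ^ (∑ j : Fin n, (Finset.Ioi j).card) * Real.exp (n * ((n : ℝ) - 1) / 2 * e n) :=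
      ciSup_le (key n hn)
    have h0 : 0 ≤ ⨆ z : Fin n → (T c l hl '' Gam : Set ℂ),
        ∏ j, ∏ k ∈ Finset.Ioi j, ‖(z j : ℂ) - z k‖ :=
      Real.iSup_nonneg fun z => by positivity
    calc _ ≤ (‖l‖ ^ (∑ j : Fin n, (Finset.Ioi j).card) * Real.exp (n * ((n : ℝ) - 1) / 2 * e n))
          ^ (2 / ((n : ℝ) * (n - 1))) := Real.rpow_le_rpow h0 h1 (by positivity)
      _ = ‖l‖ * Real.exp (e n) := by
          rw [Real.mul_rpow (by positivity) (by positivity), ← Real.rpow_natCast,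
            ← Real.rpow_mul hl0.le, sum_card, ← Real.exp_mul]
          have h3 : (n : ℝ) * (n - 1) / 2 * (2 / (n * (n - 1))) = 1 := by
            field_simp
          have h4 : (n : ℝ) * (n - 1) / 2 * e n * (2 / (n * (n - 1))) = e n := by
            field_simp
          rw [h3, h4, Real.rpow_one]

/-- the outer conformal radius -/
theorem tendsto_radius (H : PsiFacts) {φ : ℂ → ℂ}
    (hd : DifferentiableOn ℂ φ (T c l hl '' Ext)) (hi : Set.InjOn φ (T c l hl '' Ext))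
    (him : φ '' (T c l hl '' Ext) = {w : ℂ | 1 < ‖w‖})
    (hinf : Tendsto φ (Bornology.cobounded ℂ) (Bornology.cobounded ℂ)) :
    (DifferentiableOn ℂ (fun z => φ (T c l hl z)) Ext ∧ Set.InjOn (fun z => φ (T c l hl z)) Ext ∧
      (fun z => φ (T c l hl z)) '' Ext = {w : ℂ | 1 < ‖w‖} ∧
      Tendsto (fun z => ‖φ (T c l hl z)‖) (Filter.cocompact ℂ) Filter.atTop) ∧
    Tendsto (fun z : ℂ => ‖z‖ / ‖φ z‖) (Bornology.cobounded ℂ) (𝓝 ‖l‖) := by
  have hl0 : 0 < ‖l‖ := norm_pos_iff.2 hl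
  have h1 : DifferentiableOn ℂ (fun z => φ (T c l hl z)) Ext := by
    have ht : DifferentiableOn ℂ (fun z => T c l hl z) Ext := by
      simp only [T_apply]
      fun_prop
    exact hd.comp ht fun z hz => mem_image_of_mem _ hz
  have h2 : Set.InjOn (fun z => φ (T c l hl z)) Ext := fun x hx y hy hxy =>
    (T c l hl).injective (hi (mem_image_of_mem _ hx) (mem_image_of_mem _ hy) hxy)
  have h3 : (fun z => φ (T c l hl z)) '' Ext = {w : ℂ | 1 < ‖w‖} := by
    rw [← him, image_image]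
  have h4 : Tendsto (fun z => ‖φ (T c l hl z)‖) (Filter.cocompact ℂ) Filter.atTop := by
    rw [tendsto_norm_atTop_iff_cobounded]
    refine hinf.comp ?_
    rw [Metric.cobounded_eq_cocompact]
    exact (T c l hl).isClosedEmbedding.tendsto_cocompact
  refine ⟨⟨h1, h2, h3, h4⟩, ?_⟩
  have hx : ∀ z : ℂ, z = T c l hl ((z - c) / l) := fun z => by
    rw [T_apply]
    field_simp
    ring
  set D : ℝ := 1 + ‖c‖ / ‖l‖ with hD
  have hev : ∀ᶠ z : ℂ in Bornology.cobounded ℂ, 0 < ‖z‖ ∧ |‖φ z‖ / ‖z‖ - ‖l‖⁻¹| ≤ D * ‖z‖⁻¹ := by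
    have h5 : ∀ᶠ z : ℂ in Bornology.cobounded ℂ, 2 * aa * ‖l‖ + ‖c‖ < ‖z‖ :=
      tendsto_norm_cobounded_atTop.eventually_gt_atTop _
    filter_upwards [h5] with z hz
    have ha := aa_pos
    have hz0 : 0 < ‖z‖ := lt_of_le_of_lt (by positivity) hz
    refine ⟨hz0, ?_⟩
    have h6 : (z - c) / l ∈ Ext := by
      simp only [Ext, mem_ofPred_eq]
      by_contra hcon
      rw [not_lt, max_le_iff] at hcon
      have h7 := Complex.norm_le_abs_re_add_abs_im ((z - c) / l)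
      have h8 : ‖(z - c) / l‖ ≤ 2 * aa := by linarith
      rw [norm_div, div_le_iff₀ hl0] at h8
      have h9 := norm_sub_norm_le z c
      linarith
    have h7 : |‖φ (T c l hl ((z - c) / l))‖ - ‖(z - c) / l‖| ≤ 1 := norm_phi H h1 h2 h3 h4 h6
    rw [← hx z] at h7
    have h8 : |‖φ z‖ - ‖z‖ / ‖l‖| ≤ D := by
      have h9 : |‖(z - c) / l‖ - ‖z‖ / ‖l‖| ≤ ‖c‖ / ‖l‖ := by
        rw [norm_div, ← sub_div, abs_div, abs_of_pos hl0]
        apply div_le_div_of_nonneg_right _ hl0.le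
        have := abs_norm_sub_norm_le (z - c) z
        rwa [sub_sub_cancel_left, norm_neg] at this
      have e : ‖φ z‖ - ‖z‖ / ‖l‖ = (‖φ z‖ - ‖(z - c) / l‖) + (‖(z - c) / l‖ - ‖z‖ / ‖l‖) := by
        ring
      rw [e]
      exact le_trans (abs_add_le _ _) (by rw [hD]; linarith)
    have e2 : ‖φ z‖ / ‖z‖ - ‖l‖⁻¹ = (‖φ z‖ - ‖z‖ / ‖l‖) * ‖z‖⁻¹ := by
      field_simp
    rw [e2, abs_mul, abs_of_pos (inv_pos.2 hz0)]
    exact mul_le_mul_of_nonneg_right h8 (by positivity)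
  have hinv : Tendsto (fun z : ℂ => D * ‖z‖⁻¹) (Bornology.cobounded ℂ) (𝓝 (D * 0)) :=
    (tendsto_inv_atTop_zero.comp tendsto_norm_cobounded_atTop).const_mul D
  rw [mul_zero] at hinv
  have h10 : Tendsto (fun z : ℂ => ‖φ z‖ / ‖z‖) (Bornology.cobounded ℂ) (𝓝 ‖l‖⁻¹) := by
    rw [tendsto_iff_norm_sub_tendsto_zero]
    refine squeeze_zero' (Filter.Eventually.of_forall fun z => norm_nonneg _) ?_ hinv
    filter_upwards [hev] with z hz
    rw [Real.norm_eq_abs]
    exact hz.2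
  have h11 := h10.inv₀ (inv_ne_zero hl0.ne')
  rw [inv_inv] at h11
  refine h11.congr fun z => ?_
  rw [inv_div]

/-- transport of the exterior map of `Gam` -/
lemma exists_phi_T (H : PsiFacts) : ∃ φ : ℂ → ℂ, DifferentiableOn ℂ φ (T c l hl '' Ext) ∧
    Set.InjOn φ (T c l hl '' Ext) ∧ φ '' (T c l hl '' Ext) = {w : ℂ | 1 < ‖w‖} ∧
    Tendsto φ (Bornology.cobounded ℂ) (Bornology.cobounded ℂ) := by
  obtain ⟨φ, h1, h2, h3, h4⟩ := exists_phi H
  refine ⟨fun z => φ ((T c l hl).symm z), ?_, ?_, ?_, ?_⟩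
  · have ht : DifferentiableOn ℂ (fun z => (T c l hl).symm z) (T c l hl '' Ext) := by
      have e : ∀ z, (T c l hl).symm z = (z - c) / l := fun z => by
        rw [Homeomorph.symm_apply_eq, T_apply]
        field_simp
        ring
      simp only [e]
      fun_prop
    refine h1.comp ht ?_
    rintro _ ⟨x, hx, rfl⟩
    simpa using hx
  · rintro _ ⟨x, hx, rfl⟩ _ ⟨y, hy, rfl⟩ hxy
    simp only [Homeomorph.symm_apply_apply] at hxy
    rw [h2 hx hy hxy]
  · rw [image_image]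
    simp only [Homeomorph.symm_apply_apply]
    exact h3
  · refine h4.comp ?_
    rw [Metric.cobounded_eq_cocompact]
    exact (T c l hl).symm.isClosedEmbedding.tendsto_cocompact

/-- the main estimate for a similar image of ratio one -/
theorem bound_T (H : PsiFacts) (h1 : ‖l‖ = 1) {φ : ℂ → ℂ}
    (hd : DifferentiableOn ℂ φ (T c l hl '' Ext)) (hi : Set.InjOn φ (T c l hl '' Ext))
    (him : φ '' (T c l hl '' Ext) = {w : ℂ | 1 < ‖w‖})
    (hinf : Tendsto φ (Bornology.cobounded ℂ) (Bornology.cobounded ℂ))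
    {δ : ℝ} (hδ : 0 < δ) : ∃ C : ℝ, ∀ n : ℕ, 2 ≤ n → ∀ p : Fin n → ℂ,
      (∀ k, p k ∈ T c l hl '' Gam) → (∀ q : Fin n → ℂ, (∀ k, q k ∈ T c l hl '' Gam) →
        (∏ j, ∏ k ∈ Finset.Ioi j, ‖q j - q k‖) ≤ ∏ j, ∏ k ∈ Finset.Ioi j, ‖p j - p k‖) →
      ∀ z : ℂ, (∀ y ∈ T c l hl '' Gam, δ ≤ dist z y) →
        |1 / (n : ℝ) * ∑ k, Real.log ‖z - p k‖
          - (T c l hl '' Ext).indicator (fun z => Real.log ‖φ z‖) z| ≤ C / n := by
  obtain ⟨⟨h2, h3, h4, h5⟩, -⟩ := tendsto_radius H hd hi him hinf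
  obtain ⟨C, hC⟩ := main_bound h2 h3 h4 h5 hδ
  refine ⟨C, fun n hn p hp hmax z hz => ?_⟩
  have hnorm : ∀ z w, ‖T c l hl z - T c l hl w‖ = ‖z - w‖ := fun z w => by
    rw [T_sub, h1, one_mul]
  choose q hq using hp
  have hpq : p = fun k => T c l hl (q k) := by
    funext k
    exact (hq k).2.symm
  subst hpq
  obtain ⟨x, rfl⟩ := (T c l hl).surjective z
  have hfek : IsFekP n q := by
    refine ⟨fun k => (hq k).1, fun y hy => ?_⟩
    have := hmax (fun k => T c l hl (y k)) fun k => mem_image_of_mem _ (hy k)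
    simpa only [hnorm] using this
  have h6 := hC n hn q hfek x fun w hw => by
    have := hz (T c l hl w) (mem_image_of_mem _ hw)
    rwa [dist_eq_norm, hnorm] at this
  simp only [hnorm]
  have e : (T c l hl '' Ext).indicator (fun z => Real.log ‖φ z‖) (T c l hl x)
      = if aa < max |x.re| |x.im| then Real.log ‖φ (T c l hl x)‖ else 0 := by
    classical
    rw [indicator_apply]
    have e2 : T c l hl x ∈ T c l hl '' Ext ↔ aa < max |x.re| |x.im| := by
      rw [(T c l hl).injective.mem_set_image]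
      exact Iff.rfl
    simp only [e2]
  rw [e]
  exact h6

end Full

end Pool.Agent.Work.MP_82f4f8_an
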